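import Pool.Agent.Q98.SPN.Stm

/-! Project GSP (helper834), package SM: scalar moments of a sum of signs. -/

set_option autoImplicit false

open Finset

namespace Pool.Agent.U901.GSP.SM

open Pool.Agent.H172R2.GS (sg)
open Pool.Agent.Q98.SPN (S_SM)

theorem sum_exp {J : Type} [Fintype J] [DecidableEq J] (t : ℝ) :
    ∑ ε : J → Bool, Real.exp (t * ∑ g, sg (ε g)) = (2 * Real.cosh t) ^ (Fintype.card J) := by
  have h1 : ∀ ε : J → Bool, Real.exp (t * ∑ g, sg (ε g)) = ∏ g, Real.exp (t * sg (ε g)) := by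
    intro ε
    rw [Finset.mul_sum, Real.exp_sum]
  rw [Finset.sum_congr rfl fun ε _ => h1 ε]
  have h2 := Finset.prod_univ_sum (fun _ : J => (univ : Finset Bool))
    (fun _ x => Real.exp (t * sg x))
  rw [Fintype.piFinset_univ] at h2
  rw [← h2]
  have h3 : ∀ g : J, ∑ x : Bool, Real.exp (t * sg x) = 2 * Real.cosh t := by
    intro g
    rw [Fintype.sum_bool, Real.cosh_eq]
    simp [sg]
    ring
  rw [Finset.prod_congr rfl fun g _ => h3 g, Finset.prod_const, Finset.card_univ]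

theorem t_SM : S_SM := by
  intro J _ _ κ hm hκ
  set m := Fintype.card J with hmdef
  have hm0 : (0 : ℝ) < m := by exact_mod_cast hm
  have hκ0 : (0 : ℝ) < κ := by exact_mod_cast hκ
  obtain ⟨t, ht0, ht2⟩ : ∃ t : ℝ, 0 < t ∧ t ^ 2 = 2 * κ / m := by
    refine ⟨√(2 * κ / m), Real.sqrt_pos.mpr (by positivity), Real.sq_sqrt (by positivity)⟩
  have hcosh : ∑ ε : J → Bool, Real.cosh (t * ∑ g, sg (ε g)) = (2 * Real.cosh t) ^ m := by
    have h1 := sum_exp (J := J) t
    have h2 := sum_exp (J := J) (-t)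
    rw [Real.cosh_neg] at h2
    have h3 : ∀ ε : J → Bool, Real.cosh (t * ∑ g, sg (ε g)) =
        (Real.exp (t * ∑ g, sg (ε g)) + Real.exp (-t * ∑ g, sg (ε g))) / 2 := by
      intro ε
      rw [Real.cosh_eq, neg_mul]
    rw [Finset.sum_congr rfl fun ε _ => h3 ε, ← Finset.sum_div, Finset.sum_add_distrib, h1, h2]
    ring
  have hterm : ∀ ε : J → Bool, (∑ g, sg (ε g)) ^ (2 * κ) ≤
      ((2 * κ).factorial : ℝ) / t ^ (2 * κ) * Real.cosh (t * ∑ g, sg (ε g)) := by
    intro ε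
    have h1 := Real.hasSum_cosh (t * ∑ g, sg (ε g))
    have h2 := le_hasSum h1 κ (fun j _ => by
      have : 0 ≤ (t * ∑ g, sg (ε g)) ^ (2 * j) := by
        rw [pow_mul]; positivity
      positivity)
    have hf : (0 : ℝ) < ((2 * κ).factorial : ℝ) := by positivity
    have htp : 0 < t ^ (2 * κ) := by positivity
    rw [div_le_iff₀ hf, mul_pow] at h2
    rw [div_mul_eq_mul_div, le_div_iff₀ htp]
    linarith
  have hch : (2 * Real.cosh t) ^ m ≤ 2 ^ m * Real.exp κ := by
    have h1 : Real.cosh t ≤ Real.exp (t ^ 2 / 2) := Real.cosh_le_exp_half_sq t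
    calc (2 * Real.cosh t) ^ m ≤ (2 * Real.exp (t ^ 2 / 2)) ^ m := by
          have := Real.cosh_pos t
          gcongr
      _ = 2 ^ m * Real.exp κ := by
          rw [mul_pow, ← Real.exp_nat_mul]
          congr 2
          rw [ht2]
          field_simp
  have hfac : ((2 * κ).factorial : ℝ) ≤ (2 * κ : ℝ) ^ (2 * κ) := by
    have := Nat.factorial_le_pow (2 * κ)
    exact_mod_cast this
  have htk : t ^ (2 * κ) = (2 * κ / m) ^ κ := by rw [pow_mul, ht2]
  calc ∑ ε : J → Bool, (∑ g, sg (ε g)) ^ (2 * κ)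
      ≤ ∑ ε : J → Bool, ((2 * κ).factorial : ℝ) / t ^ (2 * κ) * Real.cosh (t * ∑ g, sg (ε g)) :=
        Finset.sum_le_sum fun ε _ => hterm ε
    _ = ((2 * κ).factorial : ℝ) / t ^ (2 * κ) * (2 * Real.cosh t) ^ m := by
        rw [← Finset.mul_sum, hcosh]
    _ ≤ (2 * κ : ℝ) ^ (2 * κ) / t ^ (2 * κ) * (2 ^ m * Real.exp κ) := by
        have := Real.cosh_pos t
        gcongr
    _ = 2 ^ m * (2 * Real.exp 1 * κ * m) ^ κ := by
        rw [htk]
        have e1 : Real.exp κ = Real.exp 1 ^ κ := by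
          rw [← Real.exp_nat_mul, mul_one]
        have e2 : (2 * κ : ℝ) ^ (2 * κ) = ((2 * κ : ℝ) ^ 2) ^ κ := by rw [pow_mul]
        rw [e1, e2, ← div_pow, mul_left_comm, ← mul_pow]
        congr 2
        field_simp

end Pool.Agent.U901.GSP.SM
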